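import Mathlib

set_option autoImplicit false

/-!
# Peeling off exponentials (helper96)

If a finite sum of exponentials `∑ i, c i * exp (-(l i * s))` is `O (exp (-(E * s)))` on `[0, ∞)`, then for
every `x < E` the sum of the coefficients with exponent `x` vanishes.
-/

namespace Pool.Agent.K3h96.SB

open Finset Filter Topology

/-- distinct exponents -/
theorem peel_finset (S : Finset ℝ) (c : ℝ → ℝ) (E C : ℝ)
    (h : ∀ s : ℝ, 0 ≤ s → |∑ x ∈ S, c x * Real.exp (-(x * s))| ≤ C * Real.exp (-(E * s))) :
    ∀ x ∈ S, x < E → c x = 0 := by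
  classical
  by_contra hcon
  push Not at hcon
  obtain ⟨x₀, hx₀S, hx₀E, hx₀c⟩ := hcon
  set T := S.filter (fun x => x < E ∧ c x ≠ 0) with hT
  have hTne : T.Nonempty := ⟨x₀, by simp [hT, hx₀S, hx₀E, hx₀c]⟩
  obtain ⟨m, hmT, hmin⟩ := T.exists_min_image id hTne
  have hm : m ∈ S ∧ m < E ∧ c m ≠ 0 := by simpa [hT] using hmT
  -- the function multiplied by `exp (m s)`
  have hlim : ∀ x ∈ S, Tendsto (fun s : ℝ => c x * Real.exp (-((x - m) * s))) atTop
      (𝓝 (if x = m then c m else 0)) := by
    intro x hx
    by_cases hxm : x = m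
    · subst hxm
      simp
    · rw [if_neg hxm]
      rcases lt_or_gt_of_ne hxm with hlt | hgt
      · have hcx : c x = 0 := by
          by_contra hc
          have : x ∈ T := by simp [hT, hx, hlt.trans hm.2.1, hc]
          have := hmin x this
          simp only [id] at this
          linarith
        simp [hcx]
      · have h1 : Tendsto (fun s : ℝ => (x - m) * s) atTop atTop :=
          tendsto_id.const_mul_atTop (by linarith)
        have h2 := (Real.tendsto_exp_neg_atTop_nhds_zero.comp h1).const_mul (c x)
        simpa using h2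
  have hsum := tendsto_finsetSum S hlim
  have hval : (∑ x ∈ S, if x = m then c m else 0) = c m := by
    rw [Finset.sum_ite_eq' S m (fun _ => c m)]
    simp [hm.1]
  rw [hval] at hsum
  have hR : Tendsto (fun s : ℝ => C * Real.exp (-((E - m) * s))) atTop (𝓝 0) := by
    have h1 : Tendsto (fun s : ℝ => (E - m) * s) atTop atTop :=
      tendsto_id.const_mul_atTop (by linarith [hm.2.1])
    have h2 := (Real.tendsto_exp_neg_atTop_nhds_zero.comp h1).const_mul C
    simpa using h2
  have hle : |c m| ≤ 0 := by
    refine le_of_tendsto_of_tendsto hsum.abs hR ?_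
    filter_upwards [eventually_ge_atTop (0 : ℝ)] with s hs
    have h1 := h s hs
    have h2 : ∑ x ∈ S, c x * Real.exp (-((x - m) * s)) =
        Real.exp (m * s) * ∑ x ∈ S, c x * Real.exp (-(x * s)) := by
      rw [Finset.mul_sum]
      refine Finset.sum_congr rfl fun x _ => ?_
      rw [mul_left_comm, ← Real.exp_add]
      congr 2
      ring
    rw [h2, abs_mul, abs_of_pos (Real.exp_pos _)]
    calc Real.exp (m * s) * |∑ x ∈ S, c x * Real.exp (-(x * s))|
        ≤ Real.exp (m * s) * (C * Real.exp (-(E * s))) :=
          mul_le_mul_of_nonneg_left h1 (Real.exp_pos _).le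
      _ = C * Real.exp (-((E - m) * s)) := by
          rw [mul_left_comm, ← Real.exp_add]
          congr 2
          ring
  exact hm.2.2 (abs_eq_zero.mp (le_antisymm hle (abs_nonneg _)))

/-- **Peeling off exponentials.** -/
theorem peel {ι : Type*} [Fintype ι] (l c : ι → ℝ) (E C : ℝ)
    (h : ∀ s : ℝ, 0 ≤ s → |∑ i, c i * Real.exp (-(l i * s))| ≤ C * Real.exp (-(E * s)))
    (x : ℝ) (hx : x < E) : (∑ i, if l i = x then c i else 0) = 0 := by
  classical
  by_cases hxS : x ∈ Finset.univ.image l
  · have := peel_finset (Finset.univ.image l) (fun y => ∑ i, if l i = y then c i else 0) E C ?_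
      x hxS hx
    · exact this
    · intro s hs
      have h1 : ∑ y ∈ Finset.univ.image l, (∑ i, if l i = y then c i else 0) * Real.exp (-(y * s)) =
          ∑ i, c i * Real.exp (-(l i * s)) := by
        simp_rw [Finset.sum_mul]
        rw [Finset.sum_comm]
        refine Finset.sum_congr rfl fun i _ => ?_
        rw [Finset.sum_eq_single (l i)]
        · simp
        · intro y _ hy
          simp [Ne.symm hy]
        · intro hy
          exact absurd (Finset.mem_image_of_mem l (Finset.mem_univ i)) hy
      rw [h1]
      exact h s hs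
  · refine Finset.sum_eq_zero fun i _ => ?_
    rw [if_neg]
    intro hi
    exact hxS (hi ▸ Finset.mem_image_of_mem l (Finset.mem_univ i))

end Pool.Agent.K3h96.SB
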