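import Mathlib
import Pool.Agent.K3h76.SB.StmA
import Pool.Agent.K3h96.SB.Peel

set_option autoImplicit false

/-!
# Brick IDSS (helper96, for helper76): identification, single term against single term
-/

namespace Pool.Agent.K3h96.SB

open Finset Filter Topology Pool.Agent.K3h76.SB

/-- the numerators are coprime -/
theorem coprime_n {a b : ℤ} (h : IsCoprime a b) :
    IsCoprime (a * b - a - b) (a * b - b + a) := by
  have h2 : IsCoprime (a * b - a - b) 2 := by
    rw [Int.isCoprime_iff_gcd_eq_one]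
    have hodd : Odd (a * b - a - b) := by
      rcases Int.even_or_odd a with ha | ha
      · have hb : Odd b := by
          rw [← Int.not_even_iff_odd]
          intro hb
          have := h.isUnit_of_dvd' ha.two_dvd hb.two_dvd
          rw [Int.isUnit_iff] at this
          omega
        exact ((ha.mul_right b).sub ha).sub_odd hb
      · rcases Int.even_or_odd b with hb | hb
        · exact ((hb.mul_left a).sub_odd ha).sub_even hb
        · exact ((ha.mul hb).sub_odd ha).sub_odd hb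
    rw [← Int.natAbs_odd] at hodd
    have h3 : Nat.Coprime (a * b - a - b).natAbs 2 := by
      rw [Nat.coprime_comm, Nat.coprime_two_left]
      exact hodd
    simpa [Int.gcd] using h3
  have ha : IsCoprime (a * b - a - b) a := by
    have h1 : IsCoprime (-b) a := h.symm.neg_left
    have h3 := h1.add_mul_left_left (b - 1)
    have e : -b + a * (b - 1) = a * b - a - b := by ring
    rwa [e] at h3
  have h4 := (h2.mul_right ha).mul_add_left_right 1
  have e : (a * b - a - b) * 1 + 2 * a = a * b - b + a := by ring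
  rwa [e] at h4

/-- the ratio of the two exponents determines the pair -/
theorem pair_eq {a b a' b' : ℕ} (ha : 2 ≤ a) (hab : a < b) (hc : a.Coprime b)
    (ha' : 2 ≤ a') (hab' : a' < b') (hc' : a'.Coprime b')
    (h : (1 - 1 / (a : ℝ) - 1 / b) * (1 - (1 / (a' : ℝ) - 1 / b')) =
      (1 - 1 / (a' : ℝ) - 1 / b') * (1 - (1 / (a : ℝ) - 1 / b))) : a = a' ∧ b = b' := by
  have hA : (a : ℝ) ≠ 0 := by positivity
  have hB : (b : ℝ) ≠ 0 := by
    have : 0 < b := by omega
    positivity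
  have hA' : (a' : ℝ) ≠ 0 := by positivity
  have hB' : (b' : ℝ) ≠ 0 := by
    have : 0 < b' := by omega
    positivity
  have hR : ((a : ℝ) * b - a - b) * (a' * b' - b' + a') = (a' * b' - a' - b') * (a * b - b + a) := by
    field_simp at h
    linear_combination h
  have hZ : ((a : ℤ) * b - a - b) * (a' * b' - b' + a') = (a' * b' - a' - b') * (a * b - b + a) := by
    exact_mod_cast hR
  have c1 := coprime_n (a := (a : ℤ)) (b := (b : ℤ)) (Nat.isCoprime_iff_coprime.mpr hc)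
  have c2 := coprime_n (a := (a' : ℤ)) (b := (b' : ℤ)) (Nat.isCoprime_iff_coprime.mpr hc')
  have pos : ∀ x y : ℕ, 2 ≤ x → x < y → (0 : ℤ) < (x : ℤ) * y - x - y := by
    intro x y hx hxy
    have h1 : (2 : ℤ) ≤ x := by exact_mod_cast hx
    have h2 : (x : ℤ) + 1 ≤ y := by exact_mod_cast hxy
    nlinarith
  have p1 := pos a b ha hab
  have p2 := pos a' b' ha' hab'
  have d1 : ((a : ℤ) * b - a - b) ∣ (a' * b' - a' - b') :=
    c1.dvd_of_dvd_mul_right ⟨_, hZ.symm⟩
  have d2 : ((a' : ℤ) * b' - a' - b') ∣ (a * b - a - b) :=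
    c2.dvd_of_dvd_mul_right ⟨_, hZ⟩
  have e1 : (a : ℤ) * b - a - b = a' * b' - a' - b' :=
    Int.dvd_antisymm p1.le p2.le d1 d2
  have e2 : (a' : ℤ) * b' - b' + a' = a * b - b + a := by
    rw [e1] at hZ
    exact mul_left_cancel₀ p2.ne' hZ
  have e3 : (a : ℤ) = a' := by linarith
  refine ⟨by exact_mod_cast e3, ?_⟩
  rw [← e3] at e1
  have h1 : (2 : ℤ) ≤ a := by exact_mod_cast ha
  have e4 : ((a : ℤ) - 1) * (b - b') = 0 := by linear_combination e1
  rcases mul_eq_zero.mp e4 with h5 | h5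
  · omega
  · have : (b : ℤ) = b' := by linarith
    exact_mod_cast this

/-- the numbers `k₁ = 1 - 1/a - 1/b < k₂ = 1 - (1/a - 1/b)` are in `(0, 1)` -/
theorem k_bounds {a b : ℕ} (ha : 2 ≤ a) (hab : a < b) :
    0 < 1 - 1 / (a : ℝ) - 1 / b ∧ 1 - 1 / (a : ℝ) - 1 / b < 1 - (1 / (a : ℝ) - 1 / b) ∧
      1 - (1 / (a : ℝ) - 1 / b) < 1 := by
  have h1 : (2 : ℝ) ≤ a := by exact_mod_cast ha
  have h2 : (a : ℝ) < b := by exact_mod_cast hab
  have h3 : 1 / (b : ℝ) < 1 / a := one_div_lt_one_div_of_lt (by linarith) h2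
  have h4 : 1 / (a : ℝ) ≤ 1 / 2 := one_div_le_one_div_of_le (by norm_num) h1
  have h5 : 0 < 1 / (b : ℝ) := by
    have : (0 : ℝ) < b := by linarith
    positivity
  refine ⟨by linarith, by linarith, by linarith⟩

/-- positivity of the sines -/
theorem sin_kpos {ρ k : ℝ} (h0 : 0 < ρ) (h1 : ρ < 1) (hk : 0 < k) (hk1 : k < 1) :
    0 < Real.sin (Real.pi * ρ * k) := by
  apply Real.sin_pos_of_pos_of_lt_pi
  · have := Real.pi_pos
    positivity
  · have hp := Real.pi_pos
    have h2 : ρ * k < 1 := by nlinarith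
    calc Real.pi * ρ * k = Real.pi * (ρ * k) := by ring
      _ < Real.pi * 1 := by
          apply mul_lt_mul_of_pos_left h2 hp
      _ = Real.pi := by ring

/-- the exponents and the coefficients agree -/
theorem idss_aux (a b a' b' : ℕ) (ρ v W ρ' v' W' C : ℝ) (ha : 2 ≤ a) (hab : a < b)
    (ha' : 2 ≤ a') (hab' : a' < b') (hρ : 0 < ρ) (hρ1 : ρ < 1) (hρ' : 0 < ρ') (hρ1' : ρ' < 1)
    (hv : 0 < v) (hv' : 0 < v') (hW : 0 < W) (hW' : 0 < W') (hvv : √v ≤ √v')
    (h : ∀ s : ℝ, 0 ≤ s → |W * lead2 a b ρ v s - W' * lead2 a' b' ρ' v' s| ≤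
      C * (Real.exp (-(Real.pi * √v * s)) + Real.exp (-(Real.pi * √v' * s)))) :
    √v * (1 - 1 / (a : ℝ) - 1 / b) = √v' * (1 - 1 / (a' : ℝ) - 1 / b') ∧
    √v * (1 - (1 / (a : ℝ) - 1 / b)) = √v' * (1 - (1 / (a' : ℝ) - 1 / b')) ∧
    W * Real.sin (Real.pi * ρ * (1 - 1 / a - 1 / b)) =
      W' * Real.sin (Real.pi * ρ' * (1 - 1 / a' - 1 / b')) ∧
    W * Real.sin (Real.pi * ρ * (1 - (1 / a - 1 / b))) =
      W' * Real.sin (Real.pi * ρ' * (1 - (1 / a' - 1 / b'))) := by
  obtain ⟨k1, k2, k3⟩ := k_bounds ha hab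
  obtain ⟨k1', k2', k3'⟩ := k_bounds ha' hab'
  have hp := Real.pi_pos
  have hx : 0 < √v := Real.sqrt_pos.mpr hv
  have hx' : 0 < √v' := Real.sqrt_pos.mpr hv'
  have s1 := sin_kpos hρ hρ1 k1 (k2.trans k3)
  have s2 := sin_kpos hρ hρ1 (k1.trans k2) k3
  have s1' := sin_kpos hρ' hρ1' k1' (k2'.trans k3')
  have s2' := sin_kpos hρ' hρ1' (k1'.trans k2') k3'
  set κ1 := 1 - 1 / (a : ℝ) - 1 / b with hκ1
  set κ2 := 1 - (1 / (a : ℝ) - 1 / b) with hκ2
  set κ1' := 1 - 1 / (a' : ℝ) - 1 / b' with hκ1'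
  set κ2' := 1 - (1 / (a' : ℝ) - 1 / b') with hκ2'
  set S1 := Real.sin (Real.pi * ρ * κ1) with hS1
  set S2 := Real.sin (Real.pi * ρ * κ2) with hS2
  set S1' := Real.sin (Real.pi * ρ' * κ1') with hS1'
  set S2' := Real.sin (Real.pi * ρ' * κ2') with hS2'
  -- apply peeling
  have key := peel (![Real.pi * √v * κ1, Real.pi * √v * κ2, Real.pi * √v' * κ1', Real.pi * √v' * κ2'] :
      Fin 4 → ℝ)
    (![-(W / 2) * S1, (W / 2) * S2, (W' / 2) * S1', -(W' / 2) * S2'] : Fin 4 → ℝ)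
    (Real.pi * √v) (2 * |C|) (by
      intro s hs
      have h1 := h s hs
      have e1 : ∑ i, (![-(W / 2) * S1, (W / 2) * S2, (W' / 2) * S1', -(W' / 2) * S2'] : Fin 4 → ℝ) i *
          Real.exp (-((![Real.pi * √v * κ1, Real.pi * √v * κ2, Real.pi * √v' * κ1',
            Real.pi * √v' * κ2'] : Fin 4 → ℝ) i * s)) =
          W * lead2 a b ρ v s - W' * lead2 a' b' ρ' v' s := by
        simp only [Fin.sum_univ_four, Matrix.cons_val_zero, Matrix.cons_val_one, Matrix.cons_val]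
        unfold lead2
        simp only [← hκ1, ← hκ2, ← hκ1', ← hκ2', ← hS1, ← hS2, ← hS1', ← hS2']
        ring
      rw [e1]
      refine h1.trans ?_
      have e2 : Real.exp (-(Real.pi * √v' * s)) ≤ Real.exp (-(Real.pi * √v * s)) := by
        apply Real.exp_le_exp.mpr
        have : Real.pi * √v * s ≤ Real.pi * √v' * s := by gcongr
        linarith
      have e3 : 0 < Real.exp (-(Real.pi * √v * s)) := Real.exp_pos _
      have e4 : 0 < Real.exp (-(Real.pi * √v' * s)) := Real.exp_pos _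
      calc C * (Real.exp (-(Real.pi * √v * s)) + Real.exp (-(Real.pi * √v' * s)))
          ≤ |C| * (Real.exp (-(Real.pi * √v * s)) + Real.exp (-(Real.pi * √v' * s))) :=
            mul_le_mul_of_nonneg_right (le_abs_self C) (by linarith)
        _ ≤ |C| * (Real.exp (-(Real.pi * √v * s)) + Real.exp (-(Real.pi * √v * s))) :=
            mul_le_mul_of_nonneg_left (by linarith) (abs_nonneg C)
        _ = 2 * |C| * Real.exp (-(Real.pi * √v * s)) := by ring)
  have key4 : ∀ y : ℝ, y < Real.pi * √v →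
      (if Real.pi * √v * κ1 = y then -(W / 2) * S1 else 0) +
        (if Real.pi * √v * κ2 = y then (W / 2) * S2 else 0) +
        (if Real.pi * √v' * κ1' = y then (W' / 2) * S1' else 0) +
        (if Real.pi * √v' * κ2' = y then -(W' / 2) * S2' else 0) = 0 := by
    intro y hy
    have := key y hy
    rw [Fin.sum_univ_four] at this
    exact this
  have hpx : 0 < Real.pi * √v := by positivity
  have hpx' : 0 < Real.pi * √v' := by positivity
  have A1 := key4 (Real.pi * √v * κ1) (by nlinarith)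
  have A2 := key4 (Real.pi * √v * κ2) (by nlinarith)
  have n12 : Real.pi * √v * κ2 ≠ Real.pi * √v * κ1 := by
    intro e
    have := mul_left_cancel₀ hpx.ne' e
    linarith
  have m1 : 0 < W / 2 * S1 := by positivity
  have m2 : 0 < W / 2 * S2 := by positivity
  have m1' : 0 < W' / 2 * S1' := by positivity
  have m2' : 0 < W' / 2 * S2' := by positivity
  rw [if_pos rfl, if_neg n12] at A1
  rw [if_neg n12.symm, if_pos rfl] at A2
  have B1 : Real.pi * √v' * κ1' = Real.pi * √v * κ1 := by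
    by_contra hne
    rw [if_neg hne] at A1
    split_ifs at A1 <;> linarith
  have B2 : Real.pi * √v' * κ2' = Real.pi * √v * κ2 := by
    by_contra hne
    rw [if_neg hne] at A2
    split_ifs at A2 <;> linarith
  have n12' : Real.pi * √v' * κ2' ≠ Real.pi * √v' * κ1' := by
    intro e
    have := mul_left_cancel₀ hpx'.ne' e
    linarith
  have n3 : Real.pi * √v' * κ2' ≠ Real.pi * √v * κ1 := by rw [← B1]; exact n12'
  have n4 : Real.pi * √v' * κ1' ≠ Real.pi * √v * κ2 := by rw [← B2]; exact n12'.symm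
  rw [if_pos B1, if_neg n3] at A1
  rw [if_neg n4, if_pos B2] at A2
  refine ⟨?_, ?_, by linarith, by linarith⟩
  · have : Real.pi * (√v * κ1) = Real.pi * (√v' * κ1') := by linarith [B1]
    exact mul_left_cancel₀ hp.ne' this
  · have : Real.pi * (√v * κ2) = Real.pi * (√v' * κ2') := by linarith [B2]
    exact mul_left_cancel₀ hp.ne' this

/-- **Brick IDSS**, without `S_LEAD`. -/
theorem t_IDSS' : S_RATIO → S_IDSS := by
  intro hR a b a' b' ρ v W ρ' v' W' C ha hab hc ha' hab' hc' hρ hρ1 hρ' hρ1' hv hv' hW hW' h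
  obtain ⟨E1, E2, E3, E4⟩ : √v * (1 - 1 / (a : ℝ) - 1 / b) = √v' * (1 - 1 / (a' : ℝ) - 1 / b') ∧
    √v * (1 - (1 / (a : ℝ) - 1 / b)) = √v' * (1 - (1 / (a' : ℝ) - 1 / b')) ∧
    W * Real.sin (Real.pi * ρ * (1 - 1 / a - 1 / b)) =
      W' * Real.sin (Real.pi * ρ' * (1 - 1 / a' - 1 / b')) ∧
    W * Real.sin (Real.pi * ρ * (1 - (1 / a - 1 / b))) =
      W' * Real.sin (Real.pi * ρ' * (1 - (1 / a' - 1 / b'))) := by
    rcases le_total (√v) (√v') with hle | hle
    · exact idss_aux a b a' b' ρ v W ρ' v' W' C ha hab ha' hab' hρ hρ1 hρ' hρ1' hv hv' hW hW' hle h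
    · obtain ⟨F1, F2, F3, F4⟩ := idss_aux a' b' a b ρ' v' W' ρ v W C ha' hab' ha hab hρ' hρ1' hρ hρ1
        hv' hv hW' hW hle (fun s hs => by
          rw [abs_sub_comm, add_comm (Real.exp (-(Real.pi * √v' * s)))]
          exact h s hs)
      exact ⟨F1.symm, F2.symm, F3.symm, F4.symm⟩
  have hx : 0 < √v := Real.sqrt_pos.mpr hv
  have hx' : 0 < √v' := Real.sqrt_pos.mpr hv'
  obtain ⟨k1, k2, k3⟩ := k_bounds ha hab
  obtain ⟨k1', k2', k3'⟩ := k_bounds ha' hab'
  have hpair := pair_eq ha hab hc ha' hab' hc' (by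
    have h1 : (√v * √v') * ((1 - 1 / (a : ℝ) - 1 / b) * (1 - (1 / (a' : ℝ) - 1 / b'))) =
        (√v * √v') * ((1 - 1 / (a' : ℝ) - 1 / b') * (1 - (1 / (a : ℝ) - 1 / b))) := by
      linear_combination (√v' * (1 - (1 / (a' : ℝ) - 1 / b'))) * E1 -
        (√v' * (1 - 1 / (a' : ℝ) - 1 / b')) * E2
    exact mul_left_cancel₀ (by positivity) h1)
  obtain ⟨rfl, rfl⟩ := hpair
  have hxx : √v = √v' := mul_right_cancel₀ k1.ne' E1
  have hvv : v = v' := by
    have := congrArg (fun t => t ^ 2) hxx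
    simp only [Real.sq_sqrt hv.le, Real.sq_sqrt hv'.le] at this
    exact this
  have s1 := sin_kpos hρ hρ1 k1 (k2.trans k3)
  have s1' := sin_kpos hρ' hρ1' k1 (k2.trans k3)
  have hρρ : ρ = ρ' := by
    refine hR (1 - 1 / (a : ℝ) - 1 / b) (1 - (1 / (a : ℝ) - 1 / b)) ρ ρ' k1 k2 k3.le hρ hρ1 hρ' hρ1' ?_
    have h1 : (W * W') * (Real.sin (Real.pi * ρ * (1 - 1 / (a : ℝ) - 1 / b)) *
        Real.sin (Real.pi * ρ' * (1 - (1 / (a : ℝ) - 1 / b)))) = (W * W') *
        (Real.sin (Real.pi * ρ' * (1 - 1 / (a : ℝ) - 1 / b)) *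
          Real.sin (Real.pi * ρ * (1 - (1 / (a : ℝ) - 1 / b)))) := by
      linear_combination (W' * Real.sin (Real.pi * ρ' * (1 - (1 / (a : ℝ) - 1 / b)))) * E3 -
        (W' * Real.sin (Real.pi * ρ' * (1 - 1 / (a : ℝ) - 1 / b))) * E4
    exact mul_left_cancel₀ (by positivity) h1
  refine ⟨rfl, rfl, hvv, hρρ, ?_⟩
  subst hρρ
  exact mul_right_cancel₀ s1.ne' E3

/-- **Brick IDSS.** -/
theorem t_IDSS : S_LEAD → S_RATIO → S_IDSS := fun _ => t_IDSS'

end Pool.Agent.K3h96.SB
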